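import Pool.Agent.H62.UN.Targets

/-!
# MP_8b378c_ag: the section of the conic bundle (row SEC of the board `unt_modules`)
-/

set_option autoImplicit false

namespace Pool.Agent.H15.UNT

open Polynomial Pool.Agent.H17.UN Pool.Agent.H62.UN

section val

variable {E : Type} [Field E] {o : E → ℤ}

theorem val_one (h : IsVal o) : o 1 = 0 := by
  have := h.mul 1 1 one_ne_zero one_ne_zero
  rw [mul_one] at this
  linarith

theorem val_inv (h : IsVal o) {a : E} (ha : a ≠ 0) : o a⁻¹ = -o a := by
  have := h.mul a a⁻¹ ha (inv_ne_zero ha)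
  rw [mul_inv_cancel₀ ha, val_one h] at this
  linarith

theorem val_div (h : IsVal o) {a b : E} (ha : a ≠ 0) (hb : b ≠ 0) : o (a / b) = o a - o b := by
  rw [div_eq_mul_inv, h.mul a _ ha (inv_ne_zero hb), val_inv h hb]
  ring

end val

theorem aeval_ne {κ E : Type} [Field κ] [Field E] [Algebra κ E] {τ : E}
    (ht : Transcendental κ τ) {g : κ[X]} (hg : g ≠ 0) : aeval τ g ≠ 0 := by
  intro h0
  exact hg ((transcendental_iff.1 ht) g h0)

theorem pf_SEC : F_SEC := by
  intro hSC0 hTAU hKSF hHCL hHEX hHUN hHRD k F _ _ _ _ _ P Q s y z hcb p0 φ hp0 hP1 hev hQ1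
  classical
  -- the point of the conic over `k(s)`
  obtain ⟨y₀, z₀, heq, hy₀, hz₀, hne⟩ : ∃ y₀ z₀ : k[X], y₀ ^ 2 = P + Q * z₀ ^ 2 ∧ y₀ ≠ 0 ∧
      z₀ ≠ 0 ∧ ¬ (y₀.eval 1 = p0 ∧ z₀.eval 1 = 0) := by
    obtain ⟨y₀, z₀, h1, h2, h3⟩ := hSC0 k P Q hcb.dP hcb.dQ hcb.sep
    by_cases h : y₀.eval 1 = p0 ∧ z₀.eval 1 = 0
    · refine ⟨-y₀, z₀, by rw [neg_sq]; exact h1, neg_ne_zero.2 h2, h3, fun h4 => ?_⟩
      have h5 := h4.1
      rw [eval_neg, h.1] at h5
      have h6 : (2 : k) * p0 = 0 := by linear_combination -h5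
      rcases mul_eq_zero.1 h6 with h7 | h7
      · exact two_ne_zero h7
      · exact hp0 h7
    · exact ⟨y₀, z₀, h1, h2, h3, h⟩
  obtain ⟨τ, hτ⟩ := hTAU k F P Q s y z hcb y₀ z₀ heq hy₀ hz₀
  have hst : Transcendental k s := hcb.ind.transcendental 0
  have hτ0 : τ ≠ 0 := fun h => hτ.tr (h ▸ isAlgebraic_zero)
  obtain ⟨-, o, ho, hinf⟩ := hHEX (ks k s) F τ hτ.tr hτ.gen
  have htriv : Triv (k := k) s o := by
    intro c
    by_cases hc : c = 0
    · rw [hc]; exact ho.zero
    · have h1 := hinf (C c) (C_ne_zero.2 hc)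
      rw [aeval_C, natDegree_C] at h1
      simpa using h1
  obtain ⟨hrd1, hrd2⟩ := hHRD k F P Q s y z hcb
  obtain ⟨D1, hD1, hhor⟩ := hrd2 o ho htriv
  have hoτ : o τ = -1 := by
    have h1 := hinf X X_ne_zero
    rw [aeval_X, natDegree_X] at h1
    simpa using h1
  refine ⟨D1, τ⁻¹, ⟨hhor, ?_⟩, ?_, ?_, ?_⟩
  · -- the residue field is `k(s)`
    rw [hD1]
    intro x hx
    by_cases hx0 : x = 0
    · exact ⟨0, 1, one_ne_zero, Or.inl (by rw [hx0]; simp)⟩
    obtain ⟨g, h, -, hmon, hg, hxgh⟩ := (hHUN (ks k s) F τ hτ.tr hτ.gen).1 x hx0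
    have hg' := aeval_ne hτ.tr hg
    have hh' := aeval_ne hτ.tr hmon.ne_zero
    have hox : o x = (h.natDegree : ℤ) - g.natDegree := by
      rw [hxgh, val_div ho hg' hh', hinf g hg, hinf h hmon.ne_zero]
      ring
    rw [hox] at hx
    rcases lt_or_eq_of_le (show g.natDegree ≤ h.natDegree by omega) with hlt | hdeg
    · refine ⟨0, 1, one_ne_zero, Or.inr ?_⟩
      rw [map_zero, zero_div, sub_zero, hox]
      omega
    · obtain ⟨a, b, hb, -, hab⟩ := (hKSF k F s hst).1 g.leadingCoeff
      refine ⟨a, b, hb, ?_⟩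
      rw [← hab]
      have hlc : g.leadingCoeff ≠ 0 := leadingCoeff_ne_zero.2 hg
      have hsub : x - (g.leadingCoeff : F) = aeval τ (g - C g.leadingCoeff * h) / aeval τ h := by
        rw [map_sub, map_mul, aeval_C, hxgh, sub_div, mul_div_assoc, div_self hh', mul_one]
        rfl
      by_cases h0 : g - C g.leadingCoeff * h = 0
      · left
        rw [h0, map_zero, zero_div] at hsub
        exact sub_eq_zero.1 hsub
      · right
        rw [hsub, val_div ho (aeval_ne hτ.tr h0) hh', hinf _ h0, hinf h hmon.ne_zero]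
        have hdd : g.degree = (C g.leadingCoeff * h).degree := by
          rw [degree_C_mul hlc, degree_eq_natDegree hg, degree_eq_natDegree hmon.ne_zero, hdeg]
        have hll : g.leadingCoeff = (C g.leadingCoeff * h).leadingCoeff := by
          rw [leadingCoeff_mul, leadingCoeff_C, hmon.leadingCoeff, mul_one]
        have hlt := degree_sub_lt hdd hg hll
        have hlt' := natDegree_lt_natDegree h0 hlt
        omega
  · -- the section does not pass through the point
    intro hthr
    set sK : ks k s := ⟨s, IntermediateField.mem_adjoin_simple_self k s⟩ with hsK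
    have hco : ∀ f : k[X], ((aeval sK f : ks k s) : F) = aeval s f := by
      intro f
      have h1 := Polynomial.aeval_algebraMap_apply F sK f
      exact h1.symm
    have hne0 : ∀ f : k[X], f ≠ 0 → aeval sK f ≠ 0 := by
      intro f hf h0
      have h1 := hco f
      rw [h0] at h1
      exact aeval_ne hst hf h1.symm
    have hQ0 : Q ≠ 0 := fun h0 => hQ1 (by rw [h0, eval_zero])
    have h2 : (2 : ks k s) ≠ 0 := by
      intro h0
      have h1 : ((2 : ks k s) : F) = 0 := by rw [h0]; rfl
      have h3 : algebraMap k F 2 = 0 := by simpa using h1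
      exact two_ne_zero ((map_eq_zero (algebraMap k F)).1 h3)
    -- the value of the denominator
    have hq : o (τ ^ 2 - aeval s Q) = -2 := by
      have h1 : (X ^ 2 - C (aeval sK Q) : (ks k s)[X]).natDegree = 2 := by
        rw [natDegree_sub_C, natDegree_pow, natDegree_X]
      have h3 : (X ^ 2 - C (aeval sK Q) : (ks k s)[X]) ≠ 0 := by
        intro h0
        rw [h0, natDegree_zero] at h1
        omega
      have h4 := hinf _ h3
      rw [h1, map_sub, map_pow, aeval_X, aeval_C] at h4
      have h5 : algebraMap (ks k s) F (aeval sK Q) = aeval s Q := hco Q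
      rw [h5] at h4
      simpa using h4
    -- linear polynomials
    have hlin : ∀ a b : ks k s, a ≠ 0 → o ((a : F) * τ + b) = -1 := by
      intro a b ha
      have h1 : (C a * X + C b : (ks k s)[X]).natDegree = 1 := natDegree_linear ha
      have h3 : (C a * X + C b : (ks k s)[X]) ≠ 0 := by
        intro h0
        rw [h0, natDegree_zero] at h1
        omega
      have h4 := hinf _ h3
      rw [h1, map_add, map_mul, aeval_X, aeval_C, aeval_C] at h4
      simpa using h4
    have hval : ∀ (x : F) (a b : ks k s), a ≠ 0 →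
        x * (τ ^ 2 - aeval s Q) = (a : F) * τ + b → o x = 1 := by
      intro x a b ha hx
      have h1 := hlin a b ha
      have hx0 : x ≠ 0 := by
        intro h0
        rw [← hx, h0, zero_mul, ho.zero] at h1
        omega
      rw [← hx, ho.mul _ _ hx0 hτ.q0, hq] at h1
      omega
    have hoz : o (z - aeval s z₀) = 1 := by
      refine hval _ (2 * aeval sK y₀) (2 * (aeval sK Q * aeval sK z₀))
        (mul_ne_zero h2 (hne0 _ hy₀)) ?_
      have h1 := hτ.fz
      simp only [MulMemClass.coe_mul, hco]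
      have h3 : ((2 : ks k s) : F) = 2 := rfl
      rw [h3]
      linear_combination h1
    have hoy : o (y - aeval s y₀) = 1 := by
      refine hval _ (2 * (aeval sK Q * aeval sK z₀)) (2 * (aeval sK Q * aeval sK y₀))
        (mul_ne_zero h2 (mul_ne_zero (hne0 _ hQ0) (hne0 _ hz₀))) ?_
      have h1 := hτ.fy
      simp only [MulMemClass.coe_mul, hco]
      have h3 : ((2 : ks k s) : F) = 2 := rfl
      rw [h3]
      linear_combination h1
    -- the elements of the coordinate ring
    have hsm : s ∈ ch k s y z 0 := Algebra.subset_adjoin (by simp)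
    have hym : y ∈ ch k s y z 0 := Algebra.subset_adjoin (by simp)
    have hzm : z ∈ ch k s y z 0 := Algebra.subset_adjoin (by simp)
    set sA : ch k s y z 0 := ⟨s, hsm⟩ with hsA
    have hcoA : ∀ f : k[X], ((aeval sA f : ch k s y z 0) : F) = aeval s f := by
      intro f
      have h1 := Polynomial.aeval_algebraMap_apply F sA f
      exact h1.symm
    have hφs : φ sA = 1 := (hev sA).1 rfl
    have hφ : ∀ f : k[X], φ (aeval sA f) = f.eval 1 := by
      intro f
      rw [← Polynomial.aeval_algHom_apply, hφs, Polynomial.coe_aeval_eq_eval]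
    have hz1 : z₀.eval 1 = 0 := by
      by_contra hc
      have h1 : φ (⟨z, hzm⟩ - aeval sA z₀) ≠ 0 := by
        rw [map_sub, hφ, (hev ⟨z, hzm⟩).2.2 rfl, zero_sub]
        exact neg_ne_zero.2 hc
      have h3 := hthr.2 _ h1
      rw [hD1] at h3
      have h4 : (((⟨z, hzm⟩ - aeval sA z₀ : ch k s y z 0) : ch k s y z 0) : F) =
          z - aeval s z₀ := by
        rw [AddSubgroupClass.coe_sub, hcoA]
      rw [h4, hoz] at h3
      omega
    have hy1 : y₀.eval 1 = p0 := by
      by_contra hc
      have h1 : φ (⟨y, hym⟩ - aeval sA y₀) ≠ 0 := by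
        rw [map_sub, hφ, (hev ⟨y, hym⟩).2.1 rfl]
        exact sub_ne_zero.2 (Ne.symm hc)
      have h3 := hthr.2 _ h1
      rw [hD1] at h3
      have h4 : (((⟨y, hym⟩ - aeval sA y₀ : ch k s y z 0) : ch k s y z 0) : F) =
          y - aeval s y₀ := by
        rw [AddSubgroupClass.coe_sub, hcoA]
      rw [h4, hoy] at h3
      omega
    exact hne ⟨hy1, hz1⟩
  · rw [hD1, val_inv ho hτ0, hoτ]
    norm_num
  · -- uniqueness
    intro v hv hpos
    have hvt := hrd1 v hv
    have hvv := pd_val v
    rw [val_inv hvv hτ0] at hpos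
    rcases hHCL (ks k s) F τ hτ.tr hτ.gen v.ord hvv hvt with ⟨π, hπm, hπi, hpl⟩ | hvi
    · exfalso
      obtain ⟨g, hg1, hg2⟩ := (FiniteMultiplicity.of_not_isUnit hπi.not_isUnit
        (X_ne_zero (R := ks k s))).exists_eq_pow_mul_and_not_dvd
      have h1 := hpl (multiplicity π X) g hg2
      rw [← hg1, aeval_X] at h1
      omega
    · refine pd_ext ?_
      rw [hD1]
      exact (hHUN (ks k s) F τ hτ.tr hτ.gen).2.2 _ _ hvv ho hvi hinf

end Pool.Agent.H15.UNT
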